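import Pool.Agent.N437.QR.Stm

/-!
# The partition functions of an edge, the 4-cycle and the triangle
-/

set_option autoImplicit false

namespace Pool.Agent.N504.QR

open Finset Pool.Agent.N437.QR

theorem sum_succ {k : ℕ} (F : (Fin (k + 1) → Bool) → ℝ) :
    ∑ y, F y = ∑ y : Fin k → Bool, (F (Matrix.vecCons true y) + F (Matrix.vecCons false y)) := by
  rw [← (Fin.consEquiv (fun _ : Fin (k + 1) => Bool)).sum_comp, Fintype.sum_prod_type_right]
  refine Finset.sum_congr rfl fun y _ => ?_
  rw [Fintype.sum_bool]
  rfl

theorem sum_zero (F : (Fin 0 → Bool) → ℝ) : ∑ y, F y = F ![] := by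
  rw [Fintype.sum_unique]
  congr 1

theorem sg2_mk (a b : Bool) : sg2 s(a, b) = sg a * sg b := rfl

theorem sg_t : sg true = 1 := rfl

theorem sg_f : sg false = -1 := rfl

theorem t_ZEX : S_ZEX := by
  refine ⟨?_, ?_, ?_⟩
  · intro E η h
    have hE : E = {s(0, 1)} := by
      ext e
      rw [h]
      induction e with
      | _ a b =>
        fin_cases a <;> fin_cases b <;> simp [Sym2.eq_iff]
    subst hE
    refine ⟨rfl, ?_⟩
    unfold Zf
    rw [sum_succ, sum_succ, sum_zero]
    simp only [Finset.prod_singleton, Sym2.map_mk, Matrix.cons_val_zero, Matrix.cons_val_one,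
      sg2_mk, sg_t, sg_f, Fintype.card_fin]
    ring
  · intro E η h
    have hE : E = {s(0, 1), s(1, 2), s(2, 3), s(3, 0)} := by
      ext e
      rw [h]
      induction e with
      | _ a b =>
        fin_cases a <;> fin_cases b <;> simp [Sym2.eq_iff, SimpleGraph.cycleGraph_adj] <;> decide
    subst hE
    refine ⟨by decide, ?_⟩
    unfold Zf
    rw [sum_succ, sum_succ, sum_succ, sum_succ, sum_zero]
    rw [Finset.prod_insert (by decide), Finset.prod_insert (by decide), Finset.prod_insert (by decide)]
    simp only [Finset.prod_insert, Finset.prod_singleton, Sym2.map_mk]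
    simp [sg2_mk, sg_t, sg_f]
    ring
  · intro E η h
    have hE : E = {s(0, 1), s(1, 2), s(2, 0)} := by
      ext e
      rw [h]
      induction e with
      | _ a b =>
        fin_cases a <;> fin_cases b <;> simp [Sym2.eq_iff, SimpleGraph.cycleGraph_adj] <;> decide
    subst hE
    refine ⟨by decide, ?_⟩
    unfold Zf
    rw [sum_succ, sum_succ, sum_succ, sum_zero]
    simp [sg2_mk, sg_t, sg_f]
    ring

end Pool.Agent.N504.QR
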